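import Mathlib
import Pool.Agent.Y949.LW.Main

/-!
Words in all long windows of the expansions of the numbers `a q ^ n x`, for almost all `n`.
-/

set_option autoImplicit false

open Finset Filter Topology

namespace Pool.Agent.Y949.LW

open Pool.Agent.TH461.AL
open Pool.Agent.TH461.AL.Nl (UW isOpen_UW nonempty_UW word_of_mem)

/-- the places `i` between `u` and `E - k` after which the word with value `W` stands -/
def Occ (b k : ℕ) (y : ℝ) (u : ℕ) (E : ℝ) (W : ℕ) : Set ℕ :=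
  {i : ℕ | u ≤ i ∧ (i : ℝ) + k ≤ E ∧ ⌊(b : ℝ) ^ (i + k) * y⌋ % ((b : ℤ) ^ k) = (W : ℤ)}

lemma occ_finite (b k : ℕ) (y : ℝ) (u : ℕ) (E : ℝ) (W : ℕ) : (Occ b k y u E W).Finite := by
  refine (Set.finite_Iic ⌊E⌋₊).subset ?_
  rintro i ⟨-, h, -⟩
  rw [Set.mem_Iic]
  apply Nat.le_floor
  have : (0 : ℝ) ≤ k := Nat.cast_nonneg _
  linarith

open Classical in
/-- from cells to words -/
lemma cells_le {b q k W : ℕ} (hb : 2 ≤ b) (hW : W < b ^ k) (a x : ℝ) (n u : ℕ) (E : ℝ) :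
    ((Icc (u : ℤ) (⌊E⌋ - (k + 1))).filter (fun i : ℤ =>
      ((a * x * (b : ℝ) ^ i * (q : ℝ) ^ ((n : ℕ) : ℤ) : ℝ) : UnitAddCircle) ∈ UW b k W)).card ≤
      (Occ b k (a * (q : ℝ) ^ n * x) u E W).ncard := by
  rw [← Set.ncard_coe_finset]
  refine Set.ncard_le_ncard_of_injOn (fun i : ℤ => (i + 1).toNat) ?_ ?_ (occ_finite b k _ u E W)
  · intro i hi
    simp only [Finset.coe_filter, Set.mem_ofPred_eq, Finset.mem_Icc] at hi
    obtain ⟨⟨h1, h2⟩, h3⟩ := hi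
    have hi0 : 0 ≤ i := (Int.natCast_nonneg _).trans h1
    obtain ⟨j, rfl⟩ := Int.eq_ofNat_of_zero_le hi0
    have h4 := word_of_mem hb hW h3
    have e2 : (((j : ℕ) : ℤ) + 1).toNat = j + 1 := by omega
    change (((j : ℕ) : ℤ) + 1).toNat ∈ Occ b k (a * (q : ℝ) ^ n * x) u E W
    rw [e2]
    refine ⟨by omega, ?_, ?_⟩
    · have h5' : (j : ℤ) + (k + 1) ≤ ⌊E⌋ := by linarith
      have h5 : (j : ℝ) + (k + 1) ≤ ⌊E⌋ := by exact_mod_cast h5'
      push_cast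
      linarith [Int.floor_le E]
    · have e3 : (b : ℝ) ^ (j + 1 + k) * (a * (q : ℝ) ^ n * x) =
          (b : ℝ) ^ (k + 1) * (a * x * (b : ℝ) ^ ((j : ℕ) : ℤ) * (q : ℝ) ^ ((n : ℕ) : ℤ)) := by
        rw [zpow_natCast, zpow_natCast]; ring
      rw [e3]
      exact h4
  · intro i hi i' hi' h
    simp only [Finset.coe_filter, Set.mem_ofPred_eq, Finset.mem_Icc] at hi hi'
    obtain ⟨⟨h4, h5⟩, h6⟩ := hi
    obtain ⟨⟨h7, h8⟩, h9⟩ := hi'
    simp only at h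
    have : (0 : ℤ) ≤ u := Int.natCast_nonneg _
    omega

open Classical in
/-- **Words in all long windows.** -/
theorem words {b q : ℕ} (hb : 2 ≤ b) (hq : 2 ≤ q) {r : ℝ}
    (hrb : ((b : ℝ) + 1) * r ≤ 1) {D k0 : ℕ} (hcore : CoreProp b q r D)
    (hdown : ∀ ϑ : ℝ, Down (Fa b q r ϑ) k0) {x κ c0 : ℝ} (hκ : 0 < κ) (hc0 : 0 < c0)
    (hx : ∀ Q : ℕ, 1 ≤ Q → ∀ P : ℤ, c0 ≤ (Q : ℝ) ^ κ * |Q * x - P|)
    (k R : ℕ) {C ε δ : ℝ} (hC : κ < C) (hε : 0 < ε) (hδ : 0 < δ) :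
    ∃ M0 : ℕ, ∀ M J a : ℕ, M0 ≤ M → 1 ≤ a →
      (((range M).filter (fun t : ℕ => ¬ ∀ u ≤ R * (J + M), ∀ W < b ^ k,
        (M : ℝ) ^ (1 - ε) ≤ ((Occ b k (a * (q : ℝ) ^ (J + t) * x) u
          (u + C * (u + (Real.log a + ((J + t : ℕ) : ℝ) * Real.log q) / Real.log b)) W).ncard :
            ℝ))).card : ℝ) ≤ δ * M := by
  have hbk : (0 : ℝ) < ((b ^ k : ℕ) : ℝ) + 1 := by positivity
  choose! M0 hM0 using fun W : ℕ => windows (U := UW b k W) hb hq hrb hcore hdown hκ hc0 hx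
    (isOpen_UW b k W) (nonempty_UW hb k W) R (k + 2) hC hε (div_pos hδ hbk)
  refine ⟨∑ W ∈ range (b ^ k), M0 W, fun M J a hM ha => ?_⟩
  have hsub : (range M).filter (fun t : ℕ => ¬ ∀ u ≤ R * (J + M), ∀ W < b ^ k,
        (M : ℝ) ^ (1 - ε) ≤ ((Occ b k (a * (q : ℝ) ^ (J + t) * x) u
          (u + C * (u + (Real.log a + ((J + t : ℕ) : ℝ) * Real.log q) / Real.log b)) W).ncard :
            ℝ)) ⊆ (range (b ^ k)).biUnion (fun W => (range M).filter (fun t : ℕ => ∃ u : ℕ,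
        u ≤ R * (J + M) ∧ ∃ v : ℤ,
        (u : ℝ) + C * (u + (Real.log a + ((J + t : ℕ) : ℝ) * Real.log q) / Real.log b) -
          ((k + 2 : ℕ) : ℝ) ≤ v ∧
        (((Icc (u : ℤ) v).filter (fun i : ℤ =>
          ((a * x * (b : ℝ) ^ i * (q : ℝ) ^ ((J + t : ℕ) : ℤ) : ℝ) : UnitAddCircle) ∈
            UW b k W)).card : ℝ) < (M : ℝ) ^ (1 - ε))) := by
    intro t ht
    rw [Finset.mem_filter] at ht
    obtain ⟨htM, h⟩ := ht
    push Not at h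
    obtain ⟨u, hu, W, hW, h⟩ := h
    rw [Finset.mem_biUnion]
    refine ⟨W, Finset.mem_range.2 hW, Finset.mem_filter.2 ⟨htM, u, hu, _, ?_,
      lt_of_le_of_lt (Nat.cast_le.2 (cells_le (q := q) hb hW a x (J + t) u
        (u + C * (u + (Real.log a + ((J + t : ℕ) : ℝ) * Real.log q) / Real.log b)))) h⟩⟩
    push_cast
    linarith [Int.lt_floor_add_one ((u : ℝ) + C * (u + (Real.log a + ((J : ℝ) + t) * Real.log q) /
      Real.log b))]
  refine le_trans (Nat.cast_le.2 (Finset.card_le_card hsub)) ?_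
  refine le_trans (Nat.cast_le.2 Finset.card_biUnion_le) ?_
  rw [Nat.cast_sum]
  refine (Finset.sum_le_sum (g := fun _ => δ / (((b ^ k : ℕ) : ℝ) + 1) * (M : ℝ))
    fun W hW => ?_).trans ?_
  · exact hM0 W M J a (le_trans (Finset.single_le_sum (f := M0) (fun i _ => Nat.zero_le _) hW) hM)
      ha
  · rw [Finset.sum_const, Finset.card_range, nsmul_eq_mul]
    have h1 : ((b ^ k : ℕ) : ℝ) * (δ / (((b ^ k : ℕ) : ℝ) + 1) * M) =
        (((b ^ k : ℕ) : ℝ) / (((b ^ k : ℕ) : ℝ) + 1)) * (δ * M) := by ring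
    rw [h1]
    have h2 : ((b ^ k : ℕ) : ℝ) / (((b ^ k : ℕ) : ℝ) + 1) ≤ 1 := by
      rw [div_le_one hbk]
      linarith
    exact mul_le_of_le_one_left (by positivity) h2

end Pool.Agent.Y949.LW
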