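import Mathlib
import Pool.Agent.Y949.LW.Words
import Pool.Agent.TH461.AL.Dec2
import Pool.Agent.TH461.AL.Fin
import Pool.Agent.Y949.PiM

/-!
Words in all long windows of the expansions of the numbers `a q ^ n π`.
-/

set_option autoImplicit false

open Finset Filter Topology

namespace Pool.Agent.Y949.LW

open Pool.Agent.TH461.AL

/-- the core statement and far cells below for the two kinds of pairs -/
theorem exists_core {b q : ℕ} (hb : 2 ≤ b) (hq : 2 ≤ q)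
    (h : Nat.Coprime b q ∨ ∃ v : ℕ, 2 ≤ v ∧ Nat.Coprime q v ∧ b = q * v) :
    ∃ (r : ℝ) (D k0 : ℕ), 0 < r ∧ ((b : ℝ) + 1) * r ≤ 1 ∧ CoreProp b q r D ∧
      ∀ ϑ : ℝ, Down (Fa b q r ϑ) k0 := by
  rcases h with h | ⟨v, hv, hco, rfl⟩
  · obtain ⟨r, D, hr, hrb, hrq, hD⟩ := Fin.exists_core hb hq h
    exact ⟨r, D, q, hr, hrb, hD, fun ϑ => Gen.down_gen hb (by omega)
      (Nat.lt_pow_self (by omega : 1 < b)).le hrb ϑ⟩
  · obtain ⟨r, D, hr, hrb, hD⟩ := Dec.exists_core2 Ud.updown Diag.diag Lin2.line2 Lev2.level2 hq hv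
      hco
    exact ⟨r, D, 1, hr, hrb, hD, fun ϑ => Dec.down2 hq hv hrb ϑ⟩

open Classical in
theorem words_pi (b q : ℕ) (hb : 2 ≤ b) (hq : 2 ≤ q)
    (h : Nat.Coprime b q ∨ ∃ v : ℕ, 2 ≤ v ∧ Nat.Coprime q v ∧ b = q * v) (k R : ℕ)
    (C ε δ : ℝ) (hC : 5.05 < C) (hε : 0 < ε) (hδ : 0 < δ) :
    ∃ M0 : ℕ, ∀ M J a : ℕ, M0 ≤ M → 1 ≤ a →
      (((range M).filter (fun t : ℕ => ¬ ∀ u ≤ R * (J + M), ∀ W < b ^ k,
        (M : ℝ) ^ (1 - ε) ≤ ((Occ b k (a * (q : ℝ) ^ (J + t) * Real.pi) u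
          (u + C * (u + (Real.log a + ((J + t : ℕ) : ℝ) * Real.log q) / Real.log b)) W).ncard :
            ℝ))).card : ℝ) ≤ δ * M := by
  obtain ⟨r, D, k0, -, hrb, hD, hdn⟩ := exists_core hb hq h
  obtain ⟨c0, hc0, hx⟩ := pi_measure
  exact words hb hq hrb hD hdn (by norm_num) hc0 hx k R hC hε hδ

end Pool.Agent.Y949.LW
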