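import Mathlib
import Pool.Agent.Y949.LW.Words

/-!
The theorems on all long windows, with far cells for a set of multipliers as hypothesis; for
algebraic numbers the far cells come from Ridout's theorem.
-/

set_option autoImplicit false

open Finset Filter Topology

namespace Pool.Agent.Y949.LW

open Pool.Agent.TH461.AL
open Pool.Agent.H706R2 (dZ round_run)
open Pool.Agent.TH461.AL.Nl (UW isOpen_UW nonempty_UW word_of_mem)

open Classical in
/-- **All long windows of almost all lines.** -/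
theorem windowsA {b q : ℕ} (hb : 2 ≤ b) (hq : 2 ≤ q) {r : ℝ}
    (hrb : ((b : ℝ) + 1) * r ≤ 1) {D k0 : ℕ} (hcore : CoreProp b q r D)
    (hdown : ∀ ϑ : ℝ, Down (Fa b q r ϑ) k0) {x κ : ℝ} (hκ : 0 < κ) (A : Set ℕ)
    (hfar : ∀ N : ℕ, 1 ≤ N → ∃ K : ℝ, 0 ≤ K ∧ ∀ a ∈ A, 1 ≤ a → ∀ s n : ℕ, ∃ i : ℕ, s ≤ i ∧
      (i : ℝ) ≤ s + κ * (s + (Real.log a + n * Real.log q) / Real.log b) + K ∧
      Fa b q r (N * (a * x)) i n)
    {U : Set UnitAddCircle} (hU : IsOpen U) (hUne : U.Nonempty) (R k : ℕ) {C ε δ : ℝ}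
    (hC : κ < C) (hε : 0 < ε) (hδ : 0 < δ) :
    ∃ M0 : ℕ, ∀ M J a : ℕ, M0 ≤ M → a ∈ A → 1 ≤ a →
      (((range M).filter (fun t : ℕ => ∃ u : ℕ, u ≤ R * (J + M) ∧ ∃ v : ℤ,
        (u : ℝ) + C * (u + (Real.log a + ((J + t : ℕ) : ℝ) * Real.log q) / Real.log b) - k ≤ v ∧
        (((Icc (u : ℤ) v).filter (fun i : ℤ =>
          ((a * x * (b : ℝ) ^ i * (q : ℝ) ^ ((J + t : ℕ) : ℤ) : ℝ) : UnitAddCircle) ∈ U)).card :
            ℝ) < (M : ℝ) ^ (1 - ε))).card : ℝ) ≤ δ * M := by
  have hbR : (2 : ℝ) ≤ b := by exact_mod_cast hb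
  have hqR : (2 : ℝ) ≤ q := by exact_mod_cast hq
  have hlb : 0 < Real.log b := Real.log_pos (by linarith)
  have hlq : 0 < Real.log q := Real.log_pos (by linarith)
  set ρ : ℝ := Real.log q / Real.log b with hρ
  have hρ0 : 0 < ρ := div_pos hlq hlb
  set τ : ℝ := min (δ / 8) (1 / 2) with hτ
  have hτ0 : 0 < τ := by rw [hτ]; positivity
  have hτ1 : τ ≤ δ / 8 := min_le_left _ _
  have hτ2 : τ ≤ 1 / 2 := min_le_right _ _
  set lam : ℝ := (C - κ) * ρ * τ with hlam
  have hCκ : 0 < C - κ := by linarith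
  have hlam0 : 0 < lam := by positivity
  set η : ℝ := lam / (4 * (1 + κ)) with hη
  have hη0 : 0 < η := by positivity
  have hηe : (1 + κ) * η = lam / 4 := by rw [hη]; field_simp
  set S1 : ℕ := ⌈(R : ℝ) / η⌉₊ + 2 with hS1
  have hS10 : (0 : ℝ) < S1 := by rw [hS1]; positivity
  set E : ℝ := D + κ * D + κ * ρ + k0 + 1 + D with hE
  have hE0 : 0 < E := by positivity
  set σ : ℝ := min (min (lam / (4 * E)) (δ / 4)) 1 with hσ
  have hσ0 : 0 < σ := by rw [hσ]; positivity
  have hσ1 : E * σ ≤ lam / 4 := by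
    have h1 : σ ≤ lam / (4 * E) := (min_le_left _ _).trans (min_le_left _ _)
    calc E * σ ≤ E * (lam / (4 * E)) := mul_le_mul_of_nonneg_left h1 hE0.le
      _ = lam / 4 := by field_simp
  have hσ2 : σ ≤ δ / 4 := (min_le_left _ _).trans (min_le_right _ _)
  have hσ3 : σ ≤ 1 := min_le_right _ _
  obtain ⟨ε', hε', M1, hM1⟩ := pow_cmp hε (by positivity : 0 < σ / 2)
  obtain ⟨N, hN1, hN⟩ := hcore U hU hUne ε' (δ / (4 * S1)) hε' (by positivity)
  obtain ⟨Mc, hMc⟩ := hN (k0 + 1)
  obtain ⟨K, hK0, hK⟩ := hfar N hN1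
  obtain ⟨M2, hM2⟩ := exists_nat_ge ((K + k + 2 + κ) / (lam / 4))
  obtain ⟨M3, hM3⟩ := exists_nat_ge ((2 * (Mc + 1) : ℝ) / σ)
  obtain ⟨M4, hM4⟩ := exists_nat_ge (4 / δ)
  refine ⟨max (max M1 M2) (max M3 (max M4 1)), fun M J a hM haA ha => ?_⟩
  have hMM1 : M1 ≤ M := (le_max_left _ _).trans ((le_max_left _ _).trans hM)
  have hMM2 : M2 ≤ M := (le_max_right _ _).trans ((le_max_left _ _).trans hM)
  have hMM3 : M3 ≤ M := (le_max_left _ _).trans ((le_max_right _ _).trans hM)
  have hMM4 : M4 ≤ M := (le_max_left _ _).trans ((le_max_right _ _).trans ((le_max_right _ _).trans hM))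
  have hMM5 : 1 ≤ M := (le_max_right _ _).trans ((le_max_right _ _).trans ((le_max_right _ _).trans hM))
  have hMR1 : (1 : ℝ) ≤ M := by exact_mod_cast hMM5
  have hMR0 : (0 : ℝ) < M := by linarith
  have hb2 : K + k + 2 + κ ≤ lam / 4 * M := by
    have h1 : (M2 : ℝ) ≤ M := by exact_mod_cast hMM2
    have h2 := hM2.trans h1
    rw [div_le_iff₀ (by positivity)] at h2
    linarith
  have hb3 : 2 * ((Mc : ℝ) + 1) ≤ σ * M := by
    have h1 : (M3 : ℝ) ≤ M := by exact_mod_cast hMM3
    have h2 := hM3.trans h1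
    rw [div_le_iff₀ hσ0] at h2
    linarith
  have hb4 : 4 ≤ δ * M := by
    have h1 : (M4 : ℝ) ≤ M := by exact_mod_cast hMM4
    have h2 := hM4.trans h1
    rw [div_le_iff₀ hδ] at h2
    linarith
  have haR : (1 : ℝ) ≤ a := by exact_mod_cast ha
  have hla : 0 ≤ Real.log a := Real.log_nonneg haR
  -- the blocks
  set S : ℝ := (J : ℝ) + M with hS
  have hJ0 : (0 : ℝ) ≤ J := Nat.cast_nonneg _
  have hS0 : 0 < S := by rw [hS]; linarith
  have hMS : (M : ℝ) ≤ S := by rw [hS]; linarith
  set m : ℕ := ⌊σ * M⌋₊ with hm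
  have hm1 : (m : ℝ) ≤ σ * M := Nat.floor_le (by positivity)
  have hm2 : σ * M < m + 1 := Nat.lt_floor_add_one _
  have hmc : Mc + 1 ≤ m := by
    have h1 : (Mc : ℝ) + 1 ≤ m := by
      have : (Mc : ℝ) ≥ 0 := Nat.cast_nonneg _
      linarith
    exact_mod_cast h1
  have hm0 : 1 ≤ m := by omega
  have hm3 : σ / 2 * M ≤ m := by
    have h1 : (1 : ℝ) ≤ m := by exact_mod_cast hm0
    linarith
  have hcmp := hM1 M m hMM1 hm3
  set w : ℕ := ⌈η * S⌉₊ with hw
  have hw1 : η * S ≤ w := Nat.le_ceil _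
  have hw2 : (w : ℝ) < η * S + 1 := Nat.ceil_lt_add_one (by positivity)
  have hw0 : 1 ≤ w := Nat.one_le_iff_ne_zero.2 (by
    rw [hw]
    exact (Nat.ceil_pos.2 (by positivity)).ne')
  -- the pieces
  choose i0 hi1 hi2 hi3 using fun j s : ℕ => hK a haA ha (s * w + D * m) (J + j * m + (m - 1))
  set v0 : ℕ → ℕ → ℤ := fun j s => (i0 j s : ℤ) + (k0 + 1) * m + D * m with hv0
  set Bad : ℕ → ℕ → Finset ℕ := fun j s => (range m).filter (fun t : ℕ =>
    (((Icc ((s * w : ℕ) : ℤ) (v0 j s)).filter (fun i : ℤ =>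
        ((a * x * (b : ℝ) ^ i * (q : ℝ) ^ ((J + j * m + t : ℕ) : ℤ) : ℝ) : UnitAddCircle) ∈ U)).card
          : ℝ) < (m : ℝ) ^ (1 - ε')) with hBad
  have hpiece : ∀ j s : ℕ, ((Bad j s).card : ℝ) ≤ δ / (4 * S1) * m := by
    intro j s
    refine Uni.piece (θ := a * x) (J := J + j * m) (i0 := (i0 j s : ℤ)) hdown hMc (by omega) hm0
      ?_ le_rfl ?_
    · have := hi1 j s
      have h1 : ((s * w + D * m : ℕ) : ℤ) ≤ i0 j s := by exact_mod_cast this
      push_cast at h1 ⊢
      exact h1
    · exact hi3 j s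
  set nb : ℕ := M / m with hnb
  have hnbm : nb * m ≤ M := Nat.div_mul_le_self M m
  have hsub : (range M).filter (fun t : ℕ => ∃ u : ℕ, u ≤ R * (J + M) ∧ ∃ v : ℤ,
        (u : ℝ) + C * (u + (Real.log a + ((J + t : ℕ) : ℝ) * Real.log q) / Real.log b) - k ≤ v ∧
        (((Icc (u : ℤ) v).filter (fun i : ℤ =>
          ((a * x * (b : ℝ) ^ i * (q : ℝ) ^ ((J + t : ℕ) : ℤ) : ℝ) : UnitAddCircle) ∈ U)).card :
            ℝ) < (M : ℝ) ^ (1 - ε)) ⊆
      range (⌈2 * τ * M⌉₊) ∪ (Ico (nb * m) M ∪ (range nb).biUnion (fun j => (range S1).biUnion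
        (fun s => (Bad j s).image (fun t => j * m + t)))) := by
    intro t ht
    rw [Finset.mem_filter, Finset.mem_range] at ht
    obtain ⟨htM, u, hu, v, hv, hcard⟩ := ht
    have htR : (t : ℝ) < M := by exact_mod_cast htM
    rw [Finset.mem_union, Finset.mem_union]
    by_cases hA : ((J + t : ℕ) : ℝ) < τ * S
    · left
      rw [Finset.mem_range, Nat.lt_ceil]
      push_cast at hA
      rw [hS] at hA
      have h1 : τ * J ≤ 1 / 2 * J := mul_le_mul_of_nonneg_right hτ2 hJ0
      have h2 : (J : ℝ) / 2 + t < τ * M := by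
        have : τ * ((J : ℝ) + M) = τ * J + τ * M := by ring
        linarith
      have h3 : 0 ≤ τ * M := by positivity
      linarith
    · push Not at hA
      right
      by_cases hB : nb * m ≤ t
      · left
        rw [Finset.mem_Ico]
        exact ⟨hB, htM⟩
      · push Not at hB
        right
        have hj : t / m < nb := Nat.div_lt_of_lt_mul (by rwa [mul_comm])
        set j : ℕ := t / m with hjdef
        set t' : ℕ := t % m with ht'
        have htt : j * m + t' = t := by rw [mul_comm]; exact Nat.div_add_mod t m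
        have ht'm : t' < m := Nat.mod_lt _ (by omega)
        set s : ℕ := (u + w - 1) / w with hs
        have hs1 : u ≤ s * w := by
          have h1 := Nat.div_add_mod (u + w - 1) w
          have h2 := Nat.mod_lt (u + w - 1) (by omega : 0 < w)
          rw [← hs] at h1
          rw [mul_comm s w]
          omega
        have hs2 : s * w ≤ u + w - 1 := Nat.div_mul_le_self _ _
        have huR : (u : ℝ) ≤ R * S := by
          rw [hS]
          exact_mod_cast hu
        have hsS : s < S1 := by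
          have h1 : ((s * w : ℕ) : ℝ) ≤ u + w := by
            have h2 : s * w ≤ u + w := by omega
            exact_mod_cast h2
          push_cast at h1
          have hw0R : (0 : ℝ) < w := by exact_mod_cast hw0
          have h2 : ((s : ℝ) - 1) * (η * S) ≤ R * S := by
            rcases le_or_gt (s : ℝ) 1 with h | h
            · have h3 : ((s : ℝ) - 1) * (η * S) ≤ 0 :=
                mul_nonpos_of_nonpos_of_nonneg (by linarith) (by positivity)
              have h4 : (0 : ℝ) ≤ R * S := by positivity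
              linarith
            · have h3 : ((s : ℝ) - 1) * (η * S) ≤ ((s : ℝ) - 1) * w :=
                mul_le_mul_of_nonneg_left hw1 (by linarith)
              linarith
          have h3 : ((s : ℝ) - 1) * η ≤ R := by
            have h4 : ((s : ℝ) - 1) * η * S ≤ R * S := by linarith
            exact le_of_mul_le_mul_right h4 hS0
          have h4 : (s : ℝ) - 1 ≤ R / η := by
            rw [le_div_iff₀ hη0]
            exact h3
          have h5 := Nat.le_ceil ((R : ℝ) / η)
          have h6 : (s : ℝ) < S1 := by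
            rw [hS1]
            push_cast
            linarith
          exact_mod_cast h6
        rw [Finset.mem_biUnion]
        refine ⟨j, Finset.mem_range.2 hj, ?_⟩
        rw [Finset.mem_biUnion]
        refine ⟨s, Finset.mem_range.2 hsS, ?_⟩
        rw [Finset.mem_image]
        refine ⟨t', ?_, htt⟩
        rw [hBad, Finset.mem_filter, Finset.mem_range]
        refine ⟨ht'm, lt_of_le_of_lt ?_ (lt_of_lt_of_le hcard hcmp)⟩
        have ett : J + j * m + t' = J + t := by rw [add_assoc, htt]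
        rw [ett]
        apply Nat.cast_le.2
        apply Finset.card_le_card
        apply Finset.filter_subset_filter
        apply Finset.Icc_subset_Icc
        · exact_mod_cast hs1
        · -- the end of the window
          have h1 := hi2 j s
          have hT : ((J + j * m + (m - 1) : ℕ) : ℝ) ≤ ((J + t : ℕ) : ℝ) + m := by
            have : J + j * m + (m - 1) ≤ J + t + m := by omega
            exact_mod_cast this
          have hgu : ((s * w : ℕ) : ℝ) ≤ u + w := by
            have h2 : s * w ≤ u + w := by omega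
            exact_mod_cast h2
          set ln : ℝ := (Real.log a + ((J + t : ℕ) : ℝ) * Real.log q) / Real.log b with hln
          have hlT : (Real.log a + ((J + j * m + (m - 1) : ℕ) : ℝ) * Real.log q) / Real.log b ≤
              ln + ρ * m := by
            have e : ln + ρ * m =
                (Real.log a + (((J + t : ℕ) : ℝ) + m) * Real.log q) / Real.log b := by
              rw [hln, hρ]
              ring
            rw [e]
            apply div_le_div_of_nonneg_right _ hlb.le
            have := mul_le_mul_of_nonneg_right hT hlq.le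
            linarith
          have hln1 : ρ * (τ * S) ≤ ln := by
            have e : ρ * ((J + t : ℕ) : ℝ) ≤ ln := by
              rw [hln, hρ, div_mul_eq_mul_div]
              apply div_le_div_of_nonneg_right _ hlb.le
              linarith
            exact (mul_le_mul_of_nonneg_left hA hρ0.le).trans e
          have hu0 : (0 : ℝ) ≤ u := Nat.cast_nonneg _
          have hmS : E * m ≤ lam / 4 * S := by
            calc E * m ≤ E * (σ * M) := mul_le_mul_of_nonneg_left hm1 hE0.le
              _ = E * σ * M := by ring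
              _ ≤ lam / 4 * M := mul_le_mul_of_nonneg_right hσ1 hMR0.le
              _ ≤ lam / 4 * S := mul_le_mul_of_nonneg_left hMS (by positivity)
          have hwS : (1 + κ) * w ≤ lam / 4 * S + (1 + κ) := by
            calc (1 + κ) * w ≤ (1 + κ) * (η * S + 1) :=
                  mul_le_mul_of_nonneg_left hw2.le (by positivity)
              _ = (1 + κ) * η * S + (1 + κ) := by ring
              _ = lam / 4 * S + (1 + κ) := by rw [hηe]
          have hKS : K + k + 2 + κ ≤ lam / 4 * S :=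
            hb2.trans (mul_le_mul_of_nonneg_left hMS (by positivity))
          have hslack : lam * S ≤ (C - κ) * (u + ln) := by
            have h2 : lam * S = (C - κ) * (ρ * (τ * S)) := by rw [hlam]; ring
            rw [h2]
            apply mul_le_mul_of_nonneg_left _ hCκ.le
            linarith
          have hgoal : ((v0 j s : ℤ) : ℝ) ≤ v := by
            rw [hv0]
            push_cast at h1 hgu ⊢
            have h3 : κ * ((s : ℝ) * w + D * m +
                (Real.log a + ((J : ℝ) + j * m + ((m - 1 : ℕ) : ℝ)) * Real.log q) / Real.log b) ≤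
                κ * (u + w + D * m + (ln + ρ * m)) := by
              apply mul_le_mul_of_nonneg_left _ hκ.le
              have h4 := hlT
              push_cast at h4
              linarith
            have h5 : E * m = D * m + κ * D * m + κ * ρ * m + (k0 + 1) * m + D * m := by
              rw [hE]; ring
            have h6 : κ * (u + w + D * m + (ln + ρ * m)) =
                κ * (u + ln) + κ * w + κ * D * m + κ * ρ * m := by ring
            have h7 : (1 + κ) * (w : ℝ) = w + κ * w := by ring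
            have h8 : C * ((u : ℝ) + ln) = κ * (u + ln) + (C - κ) * (u + ln) := by ring
            have h9 : lam * S = lam / 4 * S + lam / 4 * S + lam / 4 * S + lam / 4 * S := by ring
            have h10 : 0 ≤ lam / 4 * S := by positivity
            linarith
          exact_mod_cast hgoal
  -- the count
  have hc1 : ((range (⌈2 * τ * M⌉₊)).card : ℝ) ≤ δ / 4 * M + 1 := by
    rw [Finset.card_range]
    have h1 := Nat.ceil_lt_add_one (by positivity : 0 ≤ 2 * τ * (M : ℝ))
    have h2 : 2 * τ * (M : ℝ) ≤ δ / 4 * M := mul_le_mul_of_nonneg_right (by linarith) hMR0.le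
    linarith
  have hc2 : ((Ico (nb * m) M).card : ℝ) ≤ δ / 4 * M := by
    rw [Nat.card_Ico]
    have h1 : M - nb * m ≤ m := by
      have h2 := Nat.div_add_mod M m
      have h3 := Nat.mod_lt M (by omega : 0 < m)
      rw [← hnb, mul_comm] at h2
      omega
    have h2 : ((M - nb * m : ℕ) : ℝ) ≤ m := by exact_mod_cast h1
    have h3 : σ * M ≤ δ / 4 * M := mul_le_mul_of_nonneg_right hσ2 hMR0.le
    linarith
  have hc3 : ((((range nb).biUnion (fun j => (range S1).biUnion
        (fun s => (Bad j s).image (fun t => j * m + t)))).card : ℕ) : ℝ) ≤ δ / 4 * M := by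
    have h1 : ∀ j : ℕ, ((((range S1).biUnion
        (fun s => (Bad j s).image (fun t => j * m + t))).card : ℕ) : ℝ) ≤ δ / 4 * m := by
      intro j
      refine le_trans (Nat.cast_le.2 Finset.card_biUnion_le) ?_
      rw [Nat.cast_sum]
      refine (Finset.sum_le_sum (g := fun _ => δ / (4 * S1) * (m : ℝ)) fun s _ => ?_).trans ?_
      · exact (Nat.cast_le.2 Finset.card_image_le).trans (hpiece j s)
      · rw [Finset.sum_const, Finset.card_range, nsmul_eq_mul]
        have e : (S1 : ℝ) * (δ / (4 * S1) * m) = δ / 4 * m := by field_simp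
        rw [e]
    refine le_trans (Nat.cast_le.2 Finset.card_biUnion_le) ?_
    rw [Nat.cast_sum]
    refine (Finset.sum_le_sum (g := fun _ => δ / 4 * (m : ℝ)) fun j _ => h1 j).trans ?_
    rw [Finset.sum_const, Finset.card_range, nsmul_eq_mul]
    have h2 : (nb : ℝ) * m ≤ M := by exact_mod_cast hnbm
    calc (nb : ℝ) * (δ / 4 * m) = δ / 4 * (nb * m) := by ring
      _ ≤ δ / 4 * M := mul_le_mul_of_nonneg_left h2 (by positivity)
  have hfin := Nat.cast_le (α := ℝ).2 (Finset.card_le_card hsub)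
  have hun : ((range (⌈2 * τ * M⌉₊) ∪ (Ico (nb * m) M ∪ (range nb).biUnion (fun j =>
        (range S1).biUnion (fun s => (Bad j s).image (fun t => j * m + t))))).card : ℝ) ≤
      ((range (⌈2 * τ * M⌉₊)).card : ℝ) + (((Ico (nb * m) M).card : ℝ) +
        ((((range nb).biUnion (fun j => (range S1).biUnion
        (fun s => (Bad j s).image (fun t => j * m + t)))).card : ℕ) : ℝ)) := by
    have h1 := Finset.card_union_le (range (⌈2 * τ * M⌉₊)) (Ico (nb * m) M ∪ (range nb).biUnion
      (fun j => (range S1).biUnion (fun s => (Bad j s).image (fun t => j * m + t))))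
    have h2 := Finset.card_union_le (Ico (nb * m) M) ((range nb).biUnion (fun j =>
      (range S1).biUnion (fun s => (Bad j s).image (fun t => j * m + t))))
    exact_mod_cast h1.trans (Nat.add_le_add_left h2 _)
  linarith

open Classical in
/-- **Words in all long windows.** -/
theorem wordsA {b q : ℕ} (hb : 2 ≤ b) (hq : 2 ≤ q) {r : ℝ}
    (hrb : ((b : ℝ) + 1) * r ≤ 1) {D k0 : ℕ} (hcore : CoreProp b q r D)
    (hdown : ∀ ϑ : ℝ, Down (Fa b q r ϑ) k0) {x κ : ℝ} (hκ : 0 < κ) (A : Set ℕ)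
    (hfar : ∀ N : ℕ, 1 ≤ N → ∃ K : ℝ, 0 ≤ K ∧ ∀ a ∈ A, 1 ≤ a → ∀ s n : ℕ, ∃ i : ℕ, s ≤ i ∧
      (i : ℝ) ≤ s + κ * (s + (Real.log a + n * Real.log q) / Real.log b) + K ∧
      Fa b q r (N * (a * x)) i n)
    (k R : ℕ) {C ε δ : ℝ} (hC : κ < C) (hε : 0 < ε) (hδ : 0 < δ) :
    ∃ M0 : ℕ, ∀ M J a : ℕ, M0 ≤ M → a ∈ A → 1 ≤ a →
      (((range M).filter (fun t : ℕ => ¬ ∀ u ≤ R * (J + M), ∀ W < b ^ k,
        (M : ℝ) ^ (1 - ε) ≤ ((Occ b k (a * (q : ℝ) ^ (J + t) * x) u
          (u + C * (u + (Real.log a + ((J + t : ℕ) : ℝ) * Real.log q) / Real.log b)) W).ncard :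
            ℝ))).card : ℝ) ≤ δ * M := by
  have hbk : (0 : ℝ) < ((b ^ k : ℕ) : ℝ) + 1 := by positivity
  choose! M0 hM0 using fun W : ℕ => windowsA (U := UW b k W) hb hq hrb hcore hdown hκ A hfar
    (isOpen_UW b k W) (nonempty_UW hb k W) R (k + 2) hC hε (div_pos hδ hbk)
  refine ⟨∑ W ∈ range (b ^ k), M0 W, fun M J a hM haA ha => ?_⟩
  have hsub : (range M).filter (fun t : ℕ => ¬ ∀ u ≤ R * (J + M), ∀ W < b ^ k,
        (M : ℝ) ^ (1 - ε) ≤ ((Occ b k (a * (q : ℝ) ^ (J + t) * x) u
          (u + C * (u + (Real.log a + ((J + t : ℕ) : ℝ) * Real.log q) / Real.log b)) W).ncard :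
            ℝ)) ⊆ (range (b ^ k)).biUnion (fun W => (range M).filter (fun t : ℕ => ∃ u : ℕ,
        u ≤ R * (J + M) ∧ ∃ v : ℤ,
        (u : ℝ) + C * (u + (Real.log a + ((J + t : ℕ) : ℝ) * Real.log q) / Real.log b) -
          ((k + 2 : ℕ) : ℝ) ≤ v ∧
        (((Icc (u : ℤ) v).filter (fun i : ℤ =>
          ((a * x * (b : ℝ) ^ i * (q : ℝ) ^ ((J + t : ℕ) : ℤ) : ℝ) : UnitAddCircle) ∈
            UW b k W)).card : ℝ) < (M : ℝ) ^ (1 - ε))) := by
    intro t ht
    rw [Finset.mem_filter] at ht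
    obtain ⟨htM, h⟩ := ht
    push Not at h
    obtain ⟨u, hu, W, hW, h⟩ := h
    rw [Finset.mem_biUnion]
    refine ⟨W, Finset.mem_range.2 hW, Finset.mem_filter.2 ⟨htM, u, hu, _, ?_,
      lt_of_le_of_lt (Nat.cast_le.2 (cells_le (q := q) hb hW a x (J + t) u
        (u + C * (u + (Real.log a + ((J + t : ℕ) : ℝ) * Real.log q) / Real.log b)))) h⟩⟩
    push_cast
    linarith [Int.lt_floor_add_one ((u : ℝ) + C * (u + (Real.log a + ((J : ℝ) + t) * Real.log q) /
      Real.log b))]
  refine le_trans (Nat.cast_le.2 (Finset.card_le_card hsub)) ?_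
  refine le_trans (Nat.cast_le.2 Finset.card_biUnion_le) ?_
  rw [Nat.cast_sum]
  refine (Finset.sum_le_sum (g := fun _ => δ / (((b ^ k : ℕ) : ℝ) + 1) * (M : ℝ))
    fun W hW => ?_).trans ?_
  · exact hM0 W M J a (le_trans (Finset.single_le_sum (f := M0) (fun i _ => Nat.zero_le _) hW) hM)
      haA ha
  · rw [Finset.sum_const, Finset.card_range, nsmul_eq_mul]
    have h1 : ((b ^ k : ℕ) : ℝ) * (δ / (((b ^ k : ℕ) : ℝ) + 1) * M) =
        (((b ^ k : ℕ) : ℝ) / (((b ^ k : ℕ) : ℝ) + 1)) * (δ * M) := by ring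
    rw [h1]
    have h2 : ((b ^ k : ℕ) : ℝ) / (((b ^ k : ℕ) : ℝ) + 1) ≤ 1 := by
      rw [div_le_one hbk]
      linarith
    exact mul_le_of_le_one_left (by positivity) h2

/-- far cells of `N x b ^ i q ^ n` not far after the place `s`, for numbers `x` which are not well
approximated by fractions with denominators `N b ^ s q ^ n` -/
lemma exists_far_units {b q : ℕ} (hb : 2 ≤ b) (hq : 2 ≤ q) {r : ℝ}
    (hrb : ((b : ℝ) + 1) * r ≤ 1) {x κ : ℝ} (hκ : 0 < κ)
    (hx : ∀ N : ℕ, 1 ≤ N → ∃ c0 : ℝ, 0 < c0 ∧ ∀ (s n : ℕ) (P : ℤ),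
      c0 ≤ ((b : ℝ) ^ s * (q : ℝ) ^ n) ^ κ * |N * ((b : ℝ) ^ s * (q : ℝ) ^ n) * x - P|) :
    ∀ N : ℕ, 1 ≤ N → ∃ K : ℝ, 0 ≤ K ∧ ∀ a ∈ ({1} : Set ℕ), 1 ≤ a → ∀ s n : ℕ, ∃ i : ℕ, s ≤ i ∧
      (i : ℝ) ≤ s + κ * (s + (Real.log a + n * Real.log q) / Real.log b) + K ∧
      Fa b q r (N * (a * x)) i n := by
  intro N hN
  obtain ⟨c0, hc0, hx⟩ := hx N hN
  have hbR : (2 : ℝ) ≤ b := by exact_mod_cast hb
  have hb0 : (0 : ℝ) < b := by positivity
  have hq0 : (0 : ℝ) < q := by positivity
  have hlb : 0 < Real.log b := Real.log_pos (by linarith)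
  have hr1 : r < 1 := by nlinarith
  refine ⟨|Real.log c0| / Real.log b + 1, by positivity, fun a ha1 ha s n => ?_⟩
  rw [Set.mem_singleton_iff] at ha1
  subst ha1
  have hlq : 0 ≤ Real.log q := Real.log_natCast_nonneg q
  rw [Nat.cast_one, Real.log_one, zero_add]
  set X : ℝ := κ * (s + n * Real.log q / Real.log b) + |Real.log c0| / Real.log b with hX
  have hX0 : 0 ≤ X := by positivity
  set A : ℕ := ⌈X⌉₊ with hA
  have hA1 : X ≤ A := Nat.le_ceil X
  have hA2 : (A : ℝ) < X + 1 := Nat.ceil_lt_add_one hX0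
  by_contra hcon
  push Not at hcon
  set z : ℝ := (N : ℝ) * (1 * x) * (b : ℝ) ^ s * (q : ℝ) ^ n with hz
  have hnear : ∀ k ≤ A, dZ ((b : ℝ) ^ k * z) < r := by
    intro k hk
    have hkR : (k : ℝ) ≤ A := by exact_mod_cast hk
    have h1 := hcon (s + k) (Nat.le_add_right _ _) (by
      push_cast
      rw [hX] at hA2
      linarith)
    unfold Fa at h1
    push Not at h1
    have e : (N : ℝ) * (1 * x) * (b : ℝ) ^ (((s + k : ℕ)) : ℤ) * (q : ℝ) ^ ((n : ℕ) : ℤ) =
        (b : ℝ) ^ k * z := by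
      rw [zpow_natCast, zpow_natCast, hz, pow_add]
      ring
    rw [e] at h1
    exact h1
  have h1 := round_run hrb A hnear
  have h2 := hnear A le_rfl
  have h3 : (b : ℝ) ^ A * dZ z < r := by
    unfold dZ at h2
    rw [h1] at h2
    push_cast at h2
    rw [← mul_sub, abs_mul, abs_of_pos (by positivity)] at h2
    exact h2
  have h4 := hx s n (round z)
  have e1 : (N : ℝ) * ((b : ℝ) ^ s * (q : ℝ) ^ n) * x = z := by
    rw [hz]
    ring
  rw [e1] at h4
  set Q : ℝ := (b : ℝ) ^ s * (q : ℝ) ^ n with hQ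
  have hQ0 : 0 < Q := by positivity
  have h5 : c0 ≤ Q ^ κ * dZ z := h4
  -- the sizes
  have hlogQ : Real.log Q = s * Real.log b + n * Real.log q := by
    rw [hQ, Real.log_mul (by positivity) (by positivity), Real.log_pow, Real.log_pow]
  have h6 : Q ^ κ ≤ c0 * (b : ℝ) ^ A := by
    have h7 : Real.log (Q ^ κ) ≤ Real.log (c0 * (b : ℝ) ^ A) := by
      rw [Real.log_rpow hQ0, Real.log_mul hc0.ne' (by positivity), Real.log_pow, hlogQ]
      have h8 : X * Real.log b ≤ A * Real.log b := mul_le_mul_of_nonneg_right hA1 hlb.le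
      have h9 : X * Real.log b = κ * (s * Real.log b + n * Real.log q) + |Real.log c0| := by
        rw [hX]
        field_simp
      have h10 : -|Real.log c0| ≤ Real.log c0 := neg_abs_le _
      rw [h9] at h8
      linarith
    exact (Real.log_le_log_iff (Real.rpow_pos_of_pos hQ0 _) (by positivity)).1 h7
  have h7 : 0 ≤ dZ z := abs_nonneg _
  have h8 : c0 ≤ c0 * (b : ℝ) ^ A * dZ z := h5.trans (mul_le_mul_of_nonneg_right h6 h7)
  have h9 : c0 * (b : ℝ) ^ A * dZ z = c0 * ((b : ℝ) ^ A * dZ z) := by ring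
  rw [h9] at h8
  have h10 : c0 * ((b : ℝ) ^ A * dZ z) < c0 * 1 :=
    mul_lt_mul_of_pos_left (h3.trans hr1) hc0
  linarith

end Pool.Agent.Y949.LW
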