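import Mathlib
import Pool.Agent.Y949.LW.GenA
import Pool.Agent.Y949.LW.Pi
import Pool.Agent.TH419.FS.Alg
import Pool.Agent.TH419.FS.Consts

/-!
Words in all long windows of the numbers `q ^ n x` for real algebraic numbers `x` and for the
classical constants.
-/

set_option autoImplicit false

open Finset Filter Topology

namespace Pool.Agent.Y949.LW

open Pool.Agent.TH461.AL

/-- the conclusion for `x` and `C` -/
def Concl (b q k R : ℕ) (x C ε δ : ℝ) : Prop :=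
  ∃ M₀ : ℕ, ∀ M J : ℕ, M₀ ≤ M →
    (({n : ℕ | J ≤ n ∧ n < J + M ∧ ¬ ∀ u : ℕ, u ≤ R * (J + M) → ∀ W : ℕ, W < b ^ k →
      (M : ℝ) ^ (1 - ε) ≤ (({i : ℕ | u ≤ i ∧
        (i : ℝ) + k ≤ u + C * (u + n * (Real.log q / Real.log b)) ∧
        ⌊(b : ℝ) ^ (i + k) * ((q : ℝ) ^ n * x)⌋ % ((b : ℤ) ^ k) =
          (W : ℤ)}.ncard : ℕ) : ℝ)}.ncard : ℕ) : ℝ) ≤ δ * M

lemma concl_of (b q : ℕ) (k R : ℕ) (x C ε δ : ℝ) (A : Set ℕ) (hA : 1 ∈ A)
    (h : ∃ M0 : ℕ, ∀ M J a : ℕ, M0 ≤ M → a ∈ A → 1 ≤ a →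
      (((range M).filter (fun t : ℕ => by
        classical exact ¬ ∀ u ≤ R * (J + M), ∀ W < b ^ k,
        (M : ℝ) ^ (1 - ε) ≤ ((Occ b k (a * (q : ℝ) ^ (J + t) * x) u
          (u + C * (u + (Real.log a + ((J + t : ℕ) : ℝ) * Real.log q) / Real.log b)) W).ncard :
            ℝ))).card : ℝ) ≤ δ * M) : Concl b q k R x C ε δ := by
  classical
  obtain ⟨M₀, hM₀⟩ := h
  refine ⟨M₀, fun M J hM => ?_⟩
  have h1 := hM₀ M J 1 hM hA le_rfl
  refine le_trans (Nat.cast_le.2 ?_) h1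
  refine le_trans (Set.ncard_le_ncard ?_ ((Finset.finite_toSet _).image (fun t => J + t)))
    ((Set.ncard_image_le (Finset.finite_toSet _)).trans (Set.ncard_coe_finset _).le)
  rintro n ⟨h1, h2, h3⟩
  refine ⟨n - J, ?_, by simp only; omega⟩
  rw [Finset.mem_coe, Finset.mem_filter, Finset.mem_range]
  refine ⟨by omega, fun h4 => h3 fun u hu W hW => ?_⟩
  have h5 := h4 u hu W hW
  have e1 : J + (n - J) = n := by omega
  rw [e1, Nat.cast_one, Real.log_one, zero_add, one_mul] at h5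
  rw [← mul_div_assoc]
  exact h5

/-- real algebraic irrational numbers: all `C > 0` -/
theorem concl_alg (b q : ℕ) (hb : 2 ≤ b) (hq : 2 ≤ q)
    (h : Nat.Coprime b q ∨ ∃ v : ℕ, 2 ≤ v ∧ Nat.Coprime q v ∧ b = q * v) (k R : ℕ)
    (x : ℝ) (halg : IsAlgebraic ℚ x) (hirr : Irrational x)
    (C ε δ : ℝ) (hC : 0 < C) (hε : 0 < ε) (hδ : 0 < δ) : Concl b q k R x C ε δ := by
  classical
  obtain ⟨r, D, k0, -, hrb, hD, hdn⟩ := exists_core hb hq h
  obtain ⟨κ, hκ, hm⟩ := Pool.Agent.TH419.FS.alg_units b q hb hq x halg hirr (C / 2) (by linarith)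
  refine concl_of b q k R x C ε δ {1} rfl ?_
  exact wordsA hb hq hrb hD hdn (by linarith : 0 < C / 2) {1}
    (exists_far_units hb hq hrb (by linarith) fun N hN => ⟨κ N, hκ N, fun s n P => hm N hN s n P⟩)
    k R (by linarith) hε hδ

/-- numbers with finite irrationality exponent -/
theorem concl_meas (b q : ℕ) (hb : 2 ≤ b) (hq : 2 ≤ q)
    (h : Nat.Coprime b q ∨ ∃ v : ℕ, 2 ≤ v ∧ Nat.Coprime q v ∧ b = q * v) (k R : ℕ)
    (x lam : ℝ) (hlam : 0 < lam) (hx : ∃ c : ℝ, 0 < c ∧ ∀ Q : ℕ, 1 ≤ Q → ∀ P : ℤ,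
      c ≤ (Q : ℝ) ^ lam * |Q * x - P|)
    (C ε δ : ℝ) (hC : lam < C) (hε : 0 < ε) (hδ : 0 < δ) : Concl b q k R x C ε δ := by
  classical
  obtain ⟨r, D, k0, -, hrb, hD, hdn⟩ := exists_core hb hq h
  obtain ⟨c, hc, hx⟩ := hx
  refine concl_of b q k R x C ε δ Set.univ (Set.mem_univ _) ?_
  exact wordsA hb hq hrb hD hdn hlam Set.univ (fun N hN => by
    obtain ⟨K, hK0, hK⟩ := exists_far hb hq hrb hlam hc hx hN
    exact ⟨K, hK0, fun a _ ha => hK a ha⟩) k R hC hε hδ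

end Pool.Agent.Y949.LW
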